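import Mathlib
import Pool.Agent.H373R2.T7.SegEA
import Pool.Agent.H373R2.T7.SupLiou

set_option autoImplicit false

/-!
# Joint correlations of `Λ` and `λ`: one Liouville shift from an arbitrary thin family

The case `ℓ ≥ 1` of the problem, for all but very few choices of one of the Liouville shifts, taken
from an arbitrary thin family with nearly minimal additive energy of some order, for instance the
values of a polynomial; all the other shifts are arbitrary.

The Fourier analytic estimates are those of `Pool.Agent.H373R2.T7` (helper373, starting files):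
`seg_ea`, `energy_poly` and `sup_liou` (Davenport's bound for the Liouville function).
-/

namespace Pool.Agent.Results.MP_e6fa8b_nt.AlmostAllLiouvilleShifts

open Finset Polynomial

/-- `∑_{n ≤ M} ∏_i Λ(n + h i) ∏_j λ(n + h' j)`: the sum of the problem. -/
noncomputable def S {k ℓ : ℕ} (h : Fin k → ℕ) (h' : Fin ℓ → ℕ) (M : ℕ) : ℝ :=
  ∑ n ∈ Icc 1 M, (∏ i : Fin k, ArithmeticFunction.vonMangoldt (n + h i)) *
    ∏ j : Fin ℓ, (-1 : ℝ) ^ (ArithmeticFunction.cardFactors (n + h' j))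

/-- The additive energy of order `p` of the family `s 1, ..., s x`: the number of solutions of
`s (v 1) + ... + s (v p) = s (w 1) + ... + s (w p)` with all `v i`, `w i` in `{1, ..., x}`. -/
def energy (p x : ℕ) (s : ℕ → ℕ) : ℕ :=
  (((Fintype.piFinset fun _ : Fin p => Icc 1 x) ×ˢ (Fintype.piFinset fun _ : Fin p => Icc 1 x)).filter
    (fun q => ∑ i, s (q.1 i) = ∑ i, s (q.2 i))).card

/-- The shift `t` is exceptional for `N`, the base points `a`, `b` and the exponents `U`, `V`: for some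
`M ≤ N` and some shifts `h i`, `h' j` in the windows of length `log ^ V N` starting at `a i`, `b j`, the
sum with the additional Liouville factor `λ(n + t)` exceeds `N / log ^ U N` in absolute value. -/
def Exceptional {k ℓ : ℕ} (U V N : ℕ) (a : Fin k → ℕ) (b : Fin ℓ → ℕ) (t : ℕ) : Prop :=
  ∃ (h : Fin k → ℕ) (h' : Fin ℓ → ℕ) (M : ℕ),
    (∀ i, a i ≤ h i ∧ (h i : ℝ) ≤ a i + Real.log N ^ V) ∧
    (∀ j, b j ≤ h' j ∧ (h' j : ℝ) ≤ b j + Real.log N ^ V) ∧ M ≤ N ∧
    (N : ℝ) / Real.log N ^ U < |S h (Fin.cons t h' : Fin (ℓ + 1) → ℕ) M|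

lemma energy_eq (p x : ℕ) (s : ℕ → ℕ) :
    Pool.Agent.H373R2.T7.energy p x (fun m => (s m : ℤ)) = energy p x s := by
  unfold energy Pool.Agent.H373R2.T7.energy
  congr 1
  apply filter_congr
  intro q _
  change (∑ i, ((s (q.1 i) : ℕ) : ℤ) = ∑ i, ((s (q.2 i) : ℕ) : ℤ)) ↔ _
  constructor
  · intro h; exact_mod_cast h
  · intro h; exact_mod_cast h

open Classical in
/-- real form of `seg_ea` for the Liouville function -/
lemma core (p B C U : ℕ) (hB : 1 ≤ B) : ∃ N0 : ℕ, ∀ N : ℕ, N0 ≤ N →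
    ∀ (x : ℕ) (s : ℕ → ℤ), (∀ m ∈ Icc 1 x, |s m| ≤ B * N) →
    (Pool.Agent.H373R2.T7.energy p x s : ℝ) * N ≤ Real.log N ^ C * (x : ℝ) ^ (2 * p) →
    ∀ g : ℕ → ℝ, (∀ n, |g n| ≤ 1) →
      (((Icc 1 x).filter (fun m : ℕ => 0 ≤ s m ∧ ∃ M : ℕ, M ≤ N ∧ (N : ℝ) / Real.log N ^ U <
        |∑ n ∈ Icc 1 M, g n * (-1 : ℝ) ^ (ArithmeticFunction.cardFactors (n + (s m).toNat))|)).card : ℝ) ≤
        x / Real.log N ^ U := by
  obtain ⟨N0, hN0⟩ := Pool.Agent.H373R2.T7.seg_ea Pool.Agent.H373R2.T7.liR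
    Pool.Agent.H373R2.T7.liR_norm Pool.Agent.H373R2.T7.sup_liou p B C 0 U hB
  refine ⟨N0, fun N hN x s hs hE g hg => ?_⟩
  have h1 := hN0 N hN 1 le_rfl (by simp) x s (fun m hm => by
    have := hs m hm
    push_cast
    linarith) hE (fun n => (g n : ℂ)) (fun n => by
    rw [Complex.norm_real, Real.norm_eq_abs]; exact hg n)
  refine le_trans ?_ h1
  rw [Nat.cast_le]
  apply card_le_card
  intro m hm
  rw [mem_filter] at hm ⊢
  obtain ⟨hm1, hm0, M, hM, hbig⟩ := hm
  refine ⟨hm1, M, hM, ?_⟩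
  have e : (∑ n ∈ Icc 1 M, (g n : ℂ) * Pool.Agent.H373R2.T7.exI Pool.Agent.H373R2.T7.liR
      (((1 : ℕ) : ℤ) * n + s m)) =
      ((∑ n ∈ Icc 1 M, g n * (-1 : ℝ) ^ (ArithmeticFunction.cardFactors (n + (s m).toNat)) : ℝ) : ℂ) := by
    push_cast
    apply sum_congr rfl
    intro n hn
    rw [mem_Icc] at hn
    congr 1
    unfold Pool.Agent.H373R2.T7.exI Pool.Agent.H373R2.T7.liR
    have h2 : (1 : ℤ) ≤ 1 * (n : ℤ) + s m := by
      have : (1 : ℤ) ≤ n := by exact_mod_cast hn.1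
      linarith
    rw [if_pos h2]
    congr 2
    omega
  rw [e, Complex.norm_real, Real.norm_eq_abs]
  exact hbig

lemma lam_le {N B V : ℕ} (hN : 3 ≤ N) (hL : (B : ℝ) + 2 ≤ Real.log N)
    (hLV : Real.log N ^ V ≤ N) {n t a : ℕ} (hn : n ≤ N) (ha : a ≤ N ^ B)
    (ht : (t : ℝ) ≤ a + Real.log N ^ V) :
    ArithmeticFunction.vonMangoldt (n + t) ≤ Real.log N ^ 2 := by
  have hNr : (3 : ℝ) ≤ N := by exact_mod_cast hN
  have hN0 : (0 : ℝ) < N := by linarith
  have hL0 : 0 < Real.log N := by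
    have : (0 : ℝ) ≤ B := Nat.cast_nonneg _
    linarith
  have har : (a : ℝ) ≤ (N : ℝ) ^ B := by exact_mod_cast ha
  have hnr : (n : ℝ) ≤ N := by exact_mod_cast hn
  have h1 : (1 : ℝ) ≤ (N : ℝ) ^ B := one_le_pow₀ (by linarith)
  have h2 : (((n + t : ℕ) : ℝ)) ≤ (N : ℝ) ^ (B + 2) := by
    push_cast
    have h3 : (n : ℝ) + t ≤ N + ((N : ℝ) ^ B + N) := by linarith
    have h4 : (N : ℝ) ^ (B + 2) = (N : ℝ) ^ B * (N * N) := by ring
    rw [h4]
    have q1 : (N : ℝ) ^ B * (3 * N) ≤ (N : ℝ) ^ B * (N * N) :=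
      mul_le_mul_of_nonneg_left (by nlinarith) (by positivity)
    have q2 : 1 * (2 * (N : ℝ)) ≤ (N : ℝ) ^ B * (2 * N) := mul_le_mul_of_nonneg_right h1 (by linarith)
    have q3 : (N : ℝ) ^ B * 1 ≤ (N : ℝ) ^ B * N := mul_le_mul_of_nonneg_left (by linarith) (by positivity)
    linarith
  rcases Nat.eq_zero_or_pos (n + t) with h0 | h0
  · rw [h0]
    simp
    positivity
  have h5 : ArithmeticFunction.vonMangoldt (n + t) ≤ Real.log ((n + t : ℕ) : ℝ) :=
    ArithmeticFunction.vonMangoldt_le_log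
  have h6 : Real.log ((n + t : ℕ) : ℝ) ≤ ((B : ℝ) + 2) * Real.log N := by
    have h7 : Real.log ((n + t : ℕ) : ℝ) ≤ Real.log ((N : ℝ) ^ (B + 2)) :=
      Real.log_le_log (by exact_mod_cast h0) h2
    rw [Real.log_pow] at h7
    refine h7.trans (le_of_eq ?_)
    push_cast
    ring
  refine h5.trans (h6.trans ?_)
  rw [pow_two]
  exact mul_le_mul_of_nonneg_right hL hL0.le

open Classical in
lemma main (k ℓ p B C U V : ℕ) (hB : 1 ≤ B) : ∃ N₀ : ℕ, ∀ N : ℕ, N₀ ≤ N →
    ∀ (a : Fin k → ℕ) (b : Fin ℓ → ℕ), (∀ i, a i ≤ N ^ B) →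
    ∀ (x : ℕ) (s : ℕ → ℤ), (∀ m ∈ Icc 1 x, |s m| ≤ B * N) →
    (Pool.Agent.H373R2.T7.energy p x s : ℝ) * N ≤ Real.log N ^ C * (x : ℝ) ^ (2 * p) →
    (((Icc 1 x).filter (fun m : ℕ => 0 ≤ s m ∧ Exceptional U V N a b (s m).toNat)).card : ℝ) ≤
      x / Real.log N ^ U := by
  set U' : ℕ := U + 2 * k + (V + 1) * (k + ℓ) with hU'
  obtain ⟨N0, hN0⟩ := core p B C U' hB
  obtain ⟨m1, h1⟩ := Pool.Agent.H373R2.T7.ev_L' ((B : ℝ) + 2)
  obtain ⟨m2, h2⟩ := Pool.Agent.H373R2.T7.ev_log' V 1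
  refine ⟨max N0 (max m1 (max m2 3)), fun N hN a b ha x s hs hE => ?_⟩
  have hn0 : N0 ≤ N := le_trans (le_max_left _ _) hN
  have hL := h1 N (le_trans (le_trans (le_max_left _ _) (le_max_right _ _)) hN)
  have hsq := h2 N (le_trans (le_trans (le_trans (le_max_left _ _) (le_max_right _ _)) (le_max_right _ _)) hN)
  have h3 : 3 ≤ N := le_trans (le_trans (le_trans (le_max_right _ _) (le_max_right _ _)) (le_max_right _ _)) hN
  have hNr : (3 : ℝ) ≤ N := by exact_mod_cast h3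
  have hNpos : (0 : ℝ) < N := by linarith
  have hB0 : (0 : ℝ) ≤ B := Nat.cast_nonneg _
  set L := Real.log N with hLd
  have hL2 : 2 ≤ L := by linarith
  have hL0 : 0 < L := by linarith
  have hL1 : 1 ≤ L := by linarith
  have hLV : L ^ V ≤ N := by
    have h4 : √(N : ℝ) ≤ N := by
      rw [Real.sqrt_le_left (by linarith)]
      nlinarith
    have h5 : 1 * L ^ V ≤ √(N : ℝ) := hsq
    linarith
  -- the index set of the windows
  set R : Finset ℕ := range (⌊L ^ V⌋₊ + 1) with hR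
  set W : Finset ((Fin k → ℕ) × (Fin ℓ → ℕ)) :=
    (Fintype.piFinset fun _ => R) ×ˢ (Fintype.piFinset fun _ => R) with hW
  have hWc : (W.card : ℝ) ≤ L ^ ((V + 1) * (k + ℓ)) := by
    have h4 : W.card = (⌊L ^ V⌋₊ + 1) ^ (k + ℓ) := by
      rw [hW, card_product, Fintype.card_piFinset_const, Fintype.card_piFinset_const, hR, card_range,
        pow_add]
    rw [h4, pow_mul]
    push_cast
    apply pow_le_pow_left₀ (by positivity)
    have h5 : ((⌊L ^ V⌋₊ : ℕ) : ℝ) ≤ L ^ V := Nat.floor_le (by positivity)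
    have h6 : 1 ≤ L ^ V := one_le_pow₀ hL1
    rw [pow_succ]
    nlinarith
  set G : (Fin k → ℕ) × (Fin ℓ → ℕ) → ℕ → ℝ := fun w n =>
    if n ≤ N then ((∏ i : Fin k, ArithmeticFunction.vonMangoldt (n + (a i + w.1 i))) *
      ∏ j : Fin ℓ, (-1 : ℝ) ^ (ArithmeticFunction.cardFactors (n + (b j + w.2 j)))) / L ^ (2 * k) else 0
    with hG
  have hG1 : ∀ w ∈ W, ∀ n, |G w n| ≤ 1 := by
    intro w hw n
    rw [hG]
    simp only
    split_ifs with hn
    · rw [abs_div, abs_mul, abs_of_pos (by positivity : 0 < L ^ (2 * k)), div_le_one (by positivity)]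
      have h4 : |∏ j : Fin ℓ, (-1 : ℝ) ^ (ArithmeticFunction.cardFactors (n + (b j + w.2 j)))| = 1 := by
        rw [abs_prod]
        apply prod_eq_one
        intro j _
        rw [abs_pow, abs_neg, abs_one, one_pow]
      rw [h4, mul_one, abs_prod, pow_mul]
      calc ∏ i : Fin k, |ArithmeticFunction.vonMangoldt (n + (a i + w.1 i))| ≤ ∏ _i : Fin k, L ^ 2 := by
            apply prod_le_prod
            · intro i _; exact abs_nonneg _
            · intro i _
              rw [abs_of_nonneg ArithmeticFunction.vonMangoldt_nonneg]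
              apply lam_le h3 hL hLV hn (ha i)
              push_cast
              have h5 : w.1 i ∈ R := by
                rw [hW, mem_product] at hw
                exact Fintype.mem_piFinset.1 hw.1 i
              rw [hR, mem_range, Nat.lt_succ_iff, Nat.le_floor_iff (by positivity)] at h5
              linarith
        _ = (L ^ 2) ^ k := by rw [prod_const, card_univ, Fintype.card_fin]
    · simp
  have key : ∀ w ∈ W, (((Icc 1 x).filter (fun m : ℕ => 0 ≤ s m ∧ ∃ M : ℕ, M ≤ N ∧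
      (N : ℝ) / L ^ U' < |∑ n ∈ Icc 1 M, G w n *
        (-1 : ℝ) ^ (ArithmeticFunction.cardFactors (n + (s m).toNat))|)).card : ℝ) ≤ x / L ^ U' :=
    fun w hw => hN0 N hn0 x s hs hE (G w) (hG1 w hw)
  have hsub : (Icc 1 x).filter (fun m => 0 ≤ s m ∧ Exceptional U V N a b (s m).toNat) ⊆
      W.biUnion (fun w => (Icc 1 x).filter (fun m : ℕ => 0 ≤ s m ∧ ∃ M : ℕ, M ≤ N ∧
      (N : ℝ) / L ^ U' < |∑ n ∈ Icc 1 M, G w n *
        (-1 : ℝ) ^ (ArithmeticFunction.cardFactors (n + (s m).toNat))|)) := by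
    intro m hm
    rw [mem_filter] at hm
    obtain ⟨hm1, hm0, h, h', M, hh, hh', hM, hbig⟩ := hm
    rw [mem_biUnion]
    refine ⟨(fun i => h i - a i, fun j => h' j - b j), ?_, ?_⟩
    · rw [hW, mem_product, Fintype.mem_piFinset, Fintype.mem_piFinset]
      refine ⟨fun i => ?_, fun j => ?_⟩
      · simp only
        rw [hR, mem_range, Nat.lt_succ_iff, Nat.le_floor_iff (by positivity), Nat.cast_sub (hh i).1]
        linarith [(hh i).2]
      · simp only
        rw [hR, mem_range, Nat.lt_succ_iff, Nat.le_floor_iff (by positivity), Nat.cast_sub (hh' j).1]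
        linarith [(hh' j).2]
    · rw [mem_filter]
      refine ⟨hm1, hm0, M, hM, ?_⟩
      have e : ∑ n ∈ Icc 1 M, G (fun i => h i - a i, fun j => h' j - b j) n *
          (-1 : ℝ) ^ (ArithmeticFunction.cardFactors (n + (s m).toNat)) =
          S h (Fin.cons (s m).toNat h' : Fin (ℓ + 1) → ℕ) M / L ^ (2 * k) := by
        unfold S
        rw [sum_div]
        apply sum_congr rfl
        intro n hn
        rw [mem_Icc] at hn
        rw [hG]
        simp only
        rw [if_pos (hn.2.trans hM), Fin.prod_univ_succ]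
        simp only [Fin.cons_zero, Fin.cons_succ]
        have e1 : ∀ i, a i + (h i - a i) = h i := fun i => by have := (hh i).1; omega
        have e2 : ∀ j, b j + (h' j - b j) = h' j := fun j => by have := (hh' j).1; omega
        simp only [e1, e2]
        ring
      rw [e, abs_div, abs_of_pos (by positivity : 0 < L ^ (2 * k)), lt_div_iff₀ (by positivity)]
      refine lt_of_le_of_lt ?_ hbig
      rw [div_mul_eq_mul_div, div_le_div_iff₀ (by positivity) (by positivity)]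
      rw [mul_assoc, ← pow_add]
      apply mul_le_mul_of_nonneg_left _ hNpos.le
      exact pow_le_pow_right₀ hL1 (by omega)
  calc (((Icc 1 x).filter (fun m : ℕ => 0 ≤ s m ∧ Exceptional U V N a b (s m).toNat)).card : ℝ)
      ≤ ((W.biUnion (fun w => (Icc 1 x).filter (fun m : ℕ => 0 ≤ s m ∧ ∃ M : ℕ, M ≤ N ∧
          (N : ℝ) / L ^ U' < |∑ n ∈ Icc 1 M, G w n *
            (-1 : ℝ) ^ (ArithmeticFunction.cardFactors (n + (s m).toNat))|))).card : ℝ) := by
        exact_mod_cast card_le_card hsub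
    _ ≤ ∑ w ∈ W, (((Icc 1 x).filter (fun m : ℕ => 0 ≤ s m ∧ ∃ M : ℕ, M ≤ N ∧
          (N : ℝ) / L ^ U' < |∑ n ∈ Icc 1 M, G w n *
            (-1 : ℝ) ^ (ArithmeticFunction.cardFactors (n + (s m).toNat))|)).card : ℝ) := by
        exact_mod_cast card_biUnion_le
    _ ≤ ∑ _w ∈ W, (x : ℝ) / L ^ U' := sum_le_sum key
    _ = W.card * ((x : ℝ) / L ^ U') := by rw [sum_const, nsmul_eq_mul]
    _ ≤ L ^ ((V + 1) * (k + ℓ)) * ((x : ℝ) / L ^ U') := by
        apply mul_le_mul_of_nonneg_right hWc (by positivity)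
    _ ≤ x / L ^ U := by
        rw [← mul_div_assoc, div_le_div_iff₀ (by positivity) (by positivity), mul_comm (L ^ _) (x : ℝ),
          mul_assoc, ← pow_add]
        apply mul_le_mul_of_nonneg_left _ (Nat.cast_nonneg _)
        exact pow_le_pow_right₀ hL1 (by omega)

open Classical in
theorem result (k ℓ B C U V : ℕ) :
    (∀ p : ℕ, ∃ N₀ : ℕ, ∀ N : ℕ, N₀ ≤ N →
      ∀ (a : Fin k → ℕ) (b : Fin ℓ → ℕ), (∀ i, a i ≤ N ^ B) →
      ∀ (x : ℕ) (s : ℕ → ℕ), (∀ m ∈ Icc 1 x, s m ≤ B * N) →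
      (energy p x s : ℝ) * N ≤ Real.log N ^ C * (x : ℝ) ^ (2 * p) →
      (((Icc 1 x).filter (fun m : ℕ => Exceptional U V N a b (s m))).card : ℝ) ≤ x / Real.log N ^ U) ∧
    (∀ f : ℤ[X], 1 ≤ f.natDegree → 0 < f.leadingCoeff → ∃ N₀ : ℕ, ∀ N : ℕ, N₀ ≤ N →
      ∀ (a : Fin k → ℕ) (b : Fin ℓ → ℕ), (∀ i, a i ≤ N ^ B) →
      ∀ x : ℕ, N ≤ B * x ^ f.natDegree → x ^ f.natDegree ≤ B * N →
      (((Icc 1 x).filter (fun m : ℕ => 0 ≤ f.eval (m : ℤ) ∧
        Exceptional U V N a b (f.eval (m : ℤ)).toNat)).card : ℝ) ≤ x / Real.log N ^ U) := by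
  refine ⟨fun p => ?_, fun f hd hl => ?_⟩
  · obtain ⟨N0, hN0⟩ := main k ℓ p (B + 1) C U V (by omega)
    refine ⟨max N0 1, fun N hN a b ha x s hs hE => ?_⟩
    have hN1 : 1 ≤ N := le_trans (le_max_right _ _) hN
    have h1 := hN0 N (le_trans (le_max_left _ _) hN) a b
      (fun i => (ha i).trans (Nat.pow_le_pow_right hN1 (by omega))) x (fun m => (s m : ℤ))
      (fun m hm => by
        rw [Nat.abs_cast]
        have h2 : s m ≤ (B + 1) * N := (hs m hm).trans (Nat.mul_le_mul_right _ (by omega))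
        exact_mod_cast h2) (by rw [energy_eq]; exact hE)
    refine le_trans ?_ h1
    rw [Nat.cast_le]
    apply card_le_card
    intro m hm
    rw [mem_filter] at hm ⊢
    refine ⟨hm.1, Int.natCast_nonneg _, ?_⟩
    rw [Int.toNat_natCast]
    exact hm.2
  · obtain ⟨p, C1, hC1, hE1⟩ := Pool.Agent.H373R2.T7.energy_poly f hd hl
    obtain ⟨N0, hN0⟩ := main k ℓ p (Pool.Agent.H373R2.T7.cf f * B + 1 + B) 1 U V (by omega)
    obtain ⟨m1, h1⟩ := Pool.Agent.H373R2.T7.ev_L' (B * C1 + 1)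
    refine ⟨max N0 (max m1 3), fun N hN a b ha x hx1 hx2 => ?_⟩
    have hL := h1 N (le_trans (le_max_left _ _) (le_trans (le_max_right _ _) hN))
    have h3 : 3 ≤ N := le_trans (le_max_right _ _) (le_trans (le_max_right _ _) hN)
    have hx : 1 ≤ x := by
      rcases Nat.eq_zero_or_pos x with h0 | h0
      · rw [h0, zero_pow (by omega), mul_zero] at hx1
        omega
      · exact h0
    apply hN0 N (le_trans (le_max_left _ _) hN) a b
      (fun i => (ha i).trans (Nat.pow_le_pow_right (by omega) (by omega))) x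
      (fun m => f.eval (m : ℤ))
    · intro m hm
      rw [mem_Icc] at hm
      refine (Pool.Agent.H373R2.T7.abs_eval_le f m hm.1).trans ?_
      have h5 : Pool.Agent.H373R2.T7.cf f * m ^ f.natDegree ≤
          (Pool.Agent.H373R2.T7.cf f * B + 1 + B) * N := by
        calc Pool.Agent.H373R2.T7.cf f * m ^ f.natDegree ≤ Pool.Agent.H373R2.T7.cf f * (B * N) :=
              Nat.mul_le_mul_left _ ((Nat.pow_le_pow_left hm.2 _).trans hx2)
          _ = Pool.Agent.H373R2.T7.cf f * B * N := by ring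
          _ ≤ _ := Nat.mul_le_mul_right _ (by omega)
      exact_mod_cast h5
    · have hEx := hE1 x hx
      have hNx : (N : ℝ) ≤ B * (x : ℝ) ^ f.natDegree := by exact_mod_cast hx1
      calc (Pool.Agent.H373R2.T7.energy p x (fun m => f.eval (m : ℤ)) : ℝ) * N
          ≤ Pool.Agent.H373R2.T7.energy p x (fun m => f.eval (m : ℤ)) * (B * (x : ℝ) ^ f.natDegree) :=
            mul_le_mul_of_nonneg_left hNx (Nat.cast_nonneg _)
        _ = B * (Pool.Agent.H373R2.T7.energy p x (fun m => f.eval (m : ℤ)) * (x : ℝ) ^ f.natDegree) := by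
            ring
        _ ≤ B * (C1 * (x : ℝ) ^ (2 * p)) := mul_le_mul_of_nonneg_left hEx (Nat.cast_nonneg _)
        _ = (B * C1) * (x : ℝ) ^ (2 * p) := by ring
        _ ≤ Real.log N ^ 1 * (x : ℝ) ^ (2 * p) := by
            apply mul_le_mul_of_nonneg_right _ (by positivity)
            rw [pow_one]
            linarith

end Pool.Agent.Results.MP_e6fa8b_nt.AlmostAllLiouvilleShifts
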