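import Pool.Agent.W68.JointCorr

/-!
# Almost prime weights and odd products of the Liouville function: both signs for all shifts

The von Mangoldt weights of the problem are replaced by the condition that the `n + h`, `h ∈ H`, are products
of at most `B` primes, all larger than `x ^ δ`. Then for EVERY admissible set of shifts `H` of any size `k`
(also `k = 0`) and every finite set of shifts `T` of odd size `ℓ` (`T` may meet `H`) the product of the Liouville
function over the `n + h`, `h ∈ T`, takes each of the two signs at least `x ^ (1 - ε)` times for `n ≤ x`, also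
with all the `n + h`, `h ∈ T`, having at most `B` prime factors. More generally the number of prime factors of
the product of the `n + h`, `h ∈ T`, is not constant modulo `m` for every `m` coprime to the size of `T`.

The theorem on almost prime values of linear forms of the starting files
(`Pool.Agent.Results.MP_6a20cc_nt.ResidueClasses`) is applied in a residue class to a power of a small modulus,
to the shifts divided by their small prime factors.
-/

namespace Pool.Agent.Results.MP_e6fa8b_nt.AlmostPrimeWeights

theorem result (H T : Finset ℕ)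
    (hadm : ∀ p : ℕ, p.Prime → ∃ r : ℕ, r < p ∧ ∀ h ∈ H, h % p ≠ r)
    (m : ℕ) (hm : 1 < m) (hTm : Nat.Coprime T.card m) (ε : ℝ) (hε : 0 < ε) :
    ∃ (B : ℕ) (δ : ℝ), 0 < δ ∧ ∃ x₀ : ℝ, ∀ x : ℝ, x₀ ≤ x → ∀ c : ZMod m,
    x ^ (1 - ε) ≤ ({n : ℕ | 0 < n ∧ (n : ℝ) ≤ x ∧
      (∀ h ∈ H, ArithmeticFunction.cardFactors (n + h) ≤ B ∧
        ∀ p : ℕ, p.Prime → p ∣ n + h → x ^ δ < p) ∧
      (∀ h ∈ T, ArithmeticFunction.cardFactors (n + h) ≤ B) ∧
      ((∑ h ∈ T, ArithmeticFunction.cardFactors (n + h) : ℕ) : ZMod m) ≠ c}.ncard : ℝ) :=
  Pool.Agent.W68.JointCorr.main H T hadm m hm hTm ε hε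

end Pool.Agent.Results.MP_e6fa8b_nt.AlmostPrimeWeights
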