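import Pool.Agent.W93.AU14

/-!
# Joint correlations of the von Mangoldt and Liouville functions with one shift from an automatic set

The exponential sum bounds for the Liouville function (Davenport's theorem with arbitrary powers of the
logarithm) are from the starting files (`Pool.Agent.H807R2.Dav`, `Pool.Agent.H373R2.T7`).
From Mathlib: `DFA ℕ σ`: the deterministic automata with the set of states `σ` and the alphabet `ℕ`;
`M.accepts`: the set of the words accepted by `M`; `Nat.digits b v`: the digits of `v` in base `b`, from the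
least significant to the most significant one.
-/

set_option autoImplicit false

namespace Pool.Agent.Results.MP_e6fa8b_nt.AutomaticShifts

open Finset

/-- The Liouville function on the integers, `0` at the integers `m ≤ 0`, with complex values. -/
noncomputable def lam (m : ℤ) : ℂ := if 1 ≤ m then (-1) ^ ArithmeticFunction.cardFactors m.toNat else 0

open Classical in
/-- The number of the integers `0 ≤ v < N` with the property `E` whose base `b` digits are accepted by the
automaton `M`. -/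
noncomputable def num {σ : Type} (b : ℕ) (M : DFA ℕ σ) (N : ℕ) (E : ℕ → Prop) : ℝ :=
  (((range N).filter fun v => Nat.digits b v ∈ M.accepts ∧ E v).card : ℝ)

/-- Let `S` be a `b`-automatic set: the set of the integers `v ≥ 0` whose base `b` digits are accepted by a finite
automaton `M`. Suppose that `S` is not sparse: the number of the elements of `S` below `N` is not bounded by a power of
`log N`. Let `r`, `κ ≠ 0`, `B`, `T` and `U` be fixed. Let `N` be large and let `c` be an integer with `|c| ≤ B N`. For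
each of at most `log ^ T N` indices `l` let `α l ≥ 1`, let `a l i n + h l i` for `i < r` be arbitrary linear forms
with non-negative coefficients `≤ N ^ B`, and let `θ l : ℕ → ℂ` be an arbitrary function bounded by `1` (for example a
product `∏ j, λ (n + h' j)`). Then all the elements `v < N` of `S` with at most `#(S ∩ [0, N)) / log ^ U N` exceptions
have the following property: the shift `h = c + κ v` satisfies
`|∑ n ≤ x, θ l n * (∏ i, Λ (a l i * n + h l i)) * λ (α l * n + h)| ≤ N / log ^ U N`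
for all `l` and all `x ≤ B N / α l`. -/
theorem result {σ : Type} [Finite σ] (r b : ℕ) (hb : 2 ≤ b) (M : DFA ℕ σ)
    (hM : ∀ k : ℕ, ∃ᶠ N : ℕ in Filter.atTop, Real.log N ^ k < num b M N (fun _ => True))
    (κ : ℤ) (hκ : κ ≠ 0) (B T U : ℕ) :
    ∃ N₀ : ℕ, ∀ N, N₀ ≤ N → ∀ c : ℤ, |c| ≤ B * N →
      ∀ L : ℕ, (L : ℝ) ≤ Real.log N ^ T → ∀ (α : Fin L → ℕ) (a h : Fin L → Fin r → ℕ) (θ : Fin L → ℕ → ℂ),
        (∀ l, 1 ≤ α l) → (∀ l i, a l i ≤ N ^ B ∧ h l i ≤ N ^ B) → (∀ l n, ‖θ l n‖ ≤ 1) →
        num b M N (fun v => ¬ ∀ l, ∀ x : ℕ, α l * x ≤ B * N →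
          ‖∑ n ∈ Icc 1 x, θ l n * (∏ i, (ArithmeticFunction.vonMangoldt (a l i * n + h l i) : ℂ)) *
            lam (α l * n + (c + κ * v))‖ ≤ N / Real.log N ^ U) ≤
          num b M N (fun _ => True) / Real.log N ^ U := by
  classical
  have := Fintype.ofFinite σ
  have hnum : ∀ N, num b M N (fun _ => True) = (((range N).filter fun v => Nat.digits b v ∈ M.accepts).card : ℝ) := by
    intro N
    unfold num
    congr 2
    ext v
    simp only [mem_filter, and_true]
  obtain ⟨N₀, h0⟩ := Pool.Agent.W93.AU.au_corr b hb M (fun k => (hM k).mono fun N hN => by rw [hnum] at hN; exact hN)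
    Pool.Agent.H373R2.T7.liR Pool.Agent.W93.LM.nice_liR κ hκ B (T + 2 * r) U
  refine ⟨N₀ + B + 3 ^ (B + 2) + 3, fun N hN c hc L hL α a h θ hα hah hθ => ?_⟩
  obtain ⟨P3, hP3⟩ : ∃ P3 : ℕ, P3 = 3 ^ (B + 2) := ⟨_, rfl⟩
  rw [← hP3] at hN
  have hN0 : (0 : ℝ) < N := by exact_mod_cast (by omega : 0 < N)
  have hlogB : ((B + 2 : ℕ) : ℝ) ≤ Real.log N := by
    rw [Real.le_log_iff_exp_le hN0]
    have h1 : Real.exp ((B + 2 : ℕ) : ℝ) ≤ (3 : ℝ) ^ (B + 2) := by
      rw [show ((B + 2 : ℕ) : ℝ) = ((B + 2 : ℕ) : ℝ) * 1 by ring, Real.exp_nat_mul]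
      exact pow_le_pow_left₀ (Real.exp_pos _).le (by linarith [Real.exp_one_lt_d9]) _
    refine h1.trans ?_
    exact_mod_cast (by rw [← hP3]; omega : 3 ^ (B + 2) ≤ N)
  have hlog1 : 1 ≤ Real.log N := by
    have : (1 : ℝ) ≤ ((B + 2 : ℕ) : ℝ) := by exact_mod_cast (by omega : 1 ≤ B + 2)
    linarith
  have hΛ : ∀ l i n, n ≤ B * N → |ArithmeticFunction.vonMangoldt (a l i * n + h l i)| ≤ Real.log N ^ 2 := by
    intro l i n hn
    rw [abs_of_nonneg ArithmeticFunction.vonMangoldt_nonneg]
    refine ArithmeticFunction.vonMangoldt_le_log.trans ?_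
    have e1 : a l i * n + h l i ≤ N ^ (B + 2) := by
      calc a l i * n + h l i ≤ N ^ B * (B * N) + N ^ B := add_le_add (Nat.mul_le_mul (hah l i).1 hn) (hah l i).2
        _ ≤ N ^ B * (B * N) + N ^ B * N := by
            apply add_le_add le_rfl (Nat.le_mul_of_pos_right _ (by omega))
        _ = N ^ B * ((B + 1) * N) := by ring
        _ ≤ N ^ B * (N * N) := Nat.mul_le_mul_left _ (Nat.mul_le_mul_right _ (by omega))
        _ = _ := by rw [pow_add]; ring
    rcases Nat.eq_zero_or_pos (a l i * n + h l i) with h0 | h0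
    · rw [h0]
      simp only [Nat.cast_zero, Real.log_zero]
      positivity
    · have e2 : Real.log ((a l i * n + h l i : ℕ) : ℝ) ≤ Real.log ((N ^ (B + 2) : ℕ) : ℝ) :=
        Real.log_le_log (by exact_mod_cast h0) (by exact_mod_cast e1)
      refine e2.trans ?_
      rw [Nat.cast_pow, Real.log_pow, pow_two]
      exact mul_le_mul_of_nonneg_right hlogB (by linarith)
  have hLT : (L : ℝ) ≤ Real.log N ^ (T + 2 * r) := hL.trans (pow_le_pow_right₀ hlog1 (by omega))
  have h1 := h0 N (by omega) c hc L hLT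
    (fun l m => if hl : l < L then (if α ⟨l, hl⟩ ∣ m then θ ⟨l, hl⟩ (m / α ⟨l, hl⟩) *
      ∏ i, (ArithmeticFunction.vonMangoldt (a ⟨l, hl⟩ i * (m / α ⟨l, hl⟩) + h ⟨l, hl⟩ i) : ℂ) else 0) else 0) (by
      intro l hl m hm1 hm2
      simp only [hl, dif_pos]
      split_ifs with hd
      · have hmd : m / α ⟨l, hl⟩ ≤ B * N := (Nat.div_le_self _ _).trans hm2
        rw [norm_mul, norm_prod]
        have e1 : ∏ i, ‖(ArithmeticFunction.vonMangoldt (a ⟨l, hl⟩ i * (m / α ⟨l, hl⟩) + h ⟨l, hl⟩ i) : ℂ)‖ ≤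
            ∏ _i : Fin r, Real.log N ^ 2 := by
          apply prod_le_prod (fun _ _ => norm_nonneg _)
          intro i _
          rw [Complex.norm_real, Real.norm_eq_abs]
          exact hΛ _ i _ hmd
        rw [prod_const, card_univ, Fintype.card_fin, ← pow_mul] at e1
        calc _ ≤ 1 * Real.log N ^ (2 * r) := mul_le_mul (hθ _ _) e1 (prod_nonneg fun _ _ => norm_nonneg _) zero_le_one
          _ = Real.log N ^ (2 * r) := one_mul _
          _ ≤ _ := pow_le_pow_right₀ hlog1 (by omega)
      · rw [norm_zero]; positivity)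
    (fun v => ¬ ∀ l, ∀ x : ℕ, α l * x ≤ B * N →
          ‖∑ n ∈ Icc 1 x, θ l n * (∏ i, (ArithmeticFunction.vonMangoldt (a l i * n + h l i) : ℂ)) *
            lam (α l * n + (c + κ * v))‖ ≤ N / Real.log N ^ U) (by
    intro v hv
    push Not at hv
    obtain ⟨l, x, hx, h2⟩ := hv
    refine ⟨l, l.2, α l * x, hx, lt_of_lt_of_eq h2 ?_⟩
    simp only [l.2, dif_pos]
    have e1 := Pool.Agent.W93.LM.spread (fun m => Pool.Agent.H373R2.T7.exI Pool.Agent.H373R2.T7.liR ((m : ℤ) + (c + κ * v)))
      (fun n => θ l n * ∏ i, (ArithmeticFunction.vonMangoldt (a l i * n + h l i) : ℂ)) (α l) x (hα l)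
    congr 1)
  rw [hnum]
  refine le_trans (le_of_eq ?_) h1
  unfold num
  congr 2

end Pool.Agent.Results.MP_e6fa8b_nt.AutomaticShifts
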