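import Pool.Agent.W93.LM8

/-!
# Joint correlations of the von Mangoldt and Liouville functions with one shift with random digits

The exponential sum bounds for the Liouville function (Davenport's theorem with arbitrary powers of the
logarithm) are from the starting files (`Pool.Agent.H807R2.Dav`, `Pool.Agent.H373R2.T7`).
-/

set_option autoImplicit false

namespace Pool.Agent.Results.MP_e6fa8b_nt.RandomDigitShifts

open Finset

/-- The Liouville function, with complex values. -/
noncomputable def lam (n : ℕ) : ℂ := (-1) ^ ArithmeticFunction.cardFactors n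

/-- The integer `c + d 0 + d 1 * b + ... + d (k - 1) * b ^ (k - 1)`. -/
def value (b c : ℕ) {k : ℕ} (d : Fin k → ℕ) : ℕ := c + ∑ j, d j * b ^ (j : ℕ)

open Classical in
/-- The probability of the event `E` if the digits `d j`, for `j < k`, are chosen independently of each
other from `{0, ..., H - 1}`, and `d j` is equal to `a` with probability `w j a`. -/
noncomputable def Prob (H k : ℕ) (w : ℕ → ℕ → ℝ) (E : (Fin k → ℕ) → Prop) : ℝ :=
  ∑ d ∈ Fintype.piFinset (fun _ : Fin k => range H), if E d then ∏ j : Fin k, w j (d j) else 0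

/-- Let `r`, `b ≥ 2`, `H`, `B`, `K`, `U` and `η > 0` be fixed and let `k` be large. Let the digits `d j`
(`j < k`) be independent random elements of `{0, ..., H - 1}` with arbitrary distributions, none of
which takes a value with a probability larger than `1 - η`, and let `c ≤ B b ^ k` be arbitrary. For each
of at most `k ^ K` indices `l` let `α l ≥ 1`, let `a l i n + h l i` for `i < r` be arbitrary linear forms
with non-negative coefficients `≤ b ^ (B k)`, and let `θ l : ℕ → ℂ` be an arbitrary function bounded by `1`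
(for example a product `∏ j, λ (n + h' j)`). Then, with a probability of at least `1 - 1 / k ^ U`, the
shift `h = c + ∑ j, d j * b ^ j` satisfies
`|∑ n ≤ N, θ l n * (∏ i, Λ (a l i * n + h l i)) * λ (α l * n + h)| ≤ b ^ k / k ^ U`
for all `l` and all `N ≤ B b ^ k / α l`. -/
theorem result (r b H B K U : ℕ) (hb : 2 ≤ b) (η : ℝ) (hη : 0 < η) :
    ∃ k₀ : ℕ, ∀ k : ℕ, k₀ ≤ k → ∀ w : ℕ → ℕ → ℝ,
      (∀ j < k, (∀ a, 0 ≤ w j a ∧ w j a ≤ 1 - η) ∧ ∑ a ∈ range H, w j a = 1) →
      ∀ c : ℕ, c ≤ B * b ^ k →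
      ∀ L : ℕ, L ≤ k ^ K → ∀ (α : Fin L → ℕ) (a h : Fin L → Fin r → ℕ) (θ : Fin L → ℕ → ℂ),
        (∀ l, 1 ≤ α l) → (∀ l i, a l i ≤ b ^ (B * k) ∧ h l i ≤ b ^ (B * k)) → (∀ l n, ‖θ l n‖ ≤ 1) →
        Prob H k w (fun d => ¬ ∀ l, ∀ N : ℕ, α l * N ≤ B * b ^ k →
          ‖∑ n ∈ Icc 1 N, θ l n * (∏ i, (ArithmeticFunction.vonMangoldt (a l i * n + h l i) : ℂ)) *
            lam (α l * n + value b c d)‖ ≤ (b : ℝ) ^ k / (k : ℝ) ^ U) ≤
          1 / (k : ℝ) ^ U := by
  classical
  obtain ⟨k₀, h0⟩ := Pool.Agent.W93.LM.wrap b H B hb η hη Pool.Agent.H373R2.T7.liR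
    Pool.Agent.W93.LM.nice_liR (K + 2 * r) U
  obtain ⟨k1, hk1⟩ := exists_nat_ge ((2 * B + 2 : ℕ) * Real.log b : ℝ)
  refine ⟨k₀ + k1 + B + 2, fun k hk w hw c hc L hL α a h θ hα hah hθ => ?_⟩
  have hkr : (1 : ℝ) ≤ k := by exact_mod_cast (by omega : 1 ≤ k)
  have hlogb : 0 ≤ Real.log b := Real.log_natCast_nonneg b
  have hΛ : ∀ l i n, 1 ≤ n → α l * n ≤ B * b ^ k →
      |ArithmeticFunction.vonMangoldt (a l i * n + h l i)| ≤ (k : ℝ) ^ 2 := by
    intro l i n hn hαn
    rw [abs_of_nonneg ArithmeticFunction.vonMangoldt_nonneg]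
    refine ArithmeticFunction.vonMangoldt_le_log.trans ?_
    have e1 : a l i * n + h l i ≤ b ^ ((2 * B + 2) * k) := by
      have q1 : n ≤ B * b ^ k := le_trans (Nat.le_mul_of_pos_left _ (hα l)) hαn
      have q2 : B ≤ b ^ k := le_trans (by omega : B ≤ k) (Nat.lt_pow_self (by omega)).le
      have q3 : B + 1 ≤ b ^ k := le_trans (by omega : B + 1 ≤ k) (Nat.lt_pow_self (by omega)).le
      have q4 : 1 ≤ b ^ k := Nat.one_le_pow _ _ (by omega)
      calc a l i * n + h l i ≤ b ^ (B * k) * (B * b ^ k) + b ^ (B * k) := by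
            apply add_le_add (Nat.mul_le_mul (hah l i).1 q1) (hah l i).2
        _ ≤ b ^ (B * k) * (B * b ^ k) + b ^ (B * k) * b ^ k := by
            apply add_le_add le_rfl (Nat.le_mul_of_pos_right _ q4)
        _ = b ^ (B * k) * ((B + 1) * b ^ k) := by ring
        _ ≤ b ^ (B * k) * (b ^ k * b ^ k) := by
            apply Nat.mul_le_mul_left _ (Nat.mul_le_mul_right _ q3)
        _ = b ^ ((B + 2) * k) := by rw [← pow_add, ← pow_add]; congr 1; ring
        _ ≤ _ := Nat.pow_le_pow_right (by omega) (Nat.mul_le_mul_right _ (by omega))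
    rcases Nat.eq_zero_or_pos (a l i * n + h l i) with h0 | h0
    · rw [h0]
      simp only [Nat.cast_zero, Real.log_zero]
      positivity
    · have e2 : Real.log ((a l i * n + h l i : ℕ) : ℝ) ≤ Real.log ((b ^ ((2 * B + 2) * k) : ℕ) : ℝ) :=
        Real.log_le_log (by exact_mod_cast h0) (by exact_mod_cast e1)
      refine e2.trans ?_
      rw [Nat.cast_pow, Real.log_pow]
      have e3 : ((2 * B + 2 : ℕ) : ℝ) * Real.log b ≤ k := hk1.trans (by exact_mod_cast (by omega : k1 ≤ k))
      calc (((2 * B + 2) * k : ℕ) : ℝ) * Real.log b = (((2 * B + 2 : ℕ) : ℝ) * Real.log b) * k := by push_cast; ring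
        _ ≤ k * k := mul_le_mul_of_nonneg_right e3 (by linarith)
        _ = _ := by ring
  have h1 := h0 k (by omega) w hw c hc L (hL.trans (Nat.pow_le_pow_right (by omega) (by omega))) α
    (fun l n => θ l n * ∏ i, (ArithmeticFunction.vonMangoldt (a l i * n + h l i) : ℂ)) hα (by
      intro l n hn hαn
      rw [norm_mul, norm_prod]
      have e1 : ∏ i, ‖(ArithmeticFunction.vonMangoldt (a l i * n + h l i) : ℂ)‖ ≤ ∏ _i : Fin r, (k : ℝ) ^ 2 := by
        apply prod_le_prod (fun _ _ => norm_nonneg _)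
        intro i _
        rw [Complex.norm_real, Real.norm_eq_abs]
        exact hΛ l i n hn hαn
      rw [prod_const, card_univ, Fintype.card_fin, ← pow_mul] at e1
      calc _ ≤ 1 * (k : ℝ) ^ (2 * r) := mul_le_mul (hθ l n) e1 (prod_nonneg fun _ _ => norm_nonneg _) zero_le_one
        _ = (k : ℝ) ^ (2 * r) := one_mul _
        _ ≤ _ := pow_le_pow_right₀ hkr (by omega))
    (fun d => ¬ ∀ l, ∀ N : ℕ, α l * N ≤ B * b ^ k →
          ‖∑ n ∈ Icc 1 N, θ l n * (∏ i, (ArithmeticFunction.vonMangoldt (a l i * n + h l i) : ℂ)) *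
            lam (α l * n + value b c d)‖ ≤ (b : ℝ) ^ k / (k : ℝ) ^ U) (fun d hd => hd)
  refine le_trans (le_of_eq ?_) h1
  unfold Prob Pool.Agent.W93.RD.Str Pool.Agent.W93.RD.pw
  apply sum_congr rfl
  intro d _
  split_ifs <;> rfl

end Pool.Agent.Results.MP_e6fa8b_nt.RandomDigitShifts
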